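import Pool.Agent.Helper66.SB.GoalsB

/-!
# Project SB, packet LOW: the lower bound for the dimension
-/

set_option autoImplicit false

open Module MvPolynomial

noncomputable section

namespace Pool.Agent.Helper35.SB

open Helper18.Shgh Pool.Agent.Helper66.SB

theorem gLOW : G_LOW := by
  intro r n a P hn
  let K : Fin r → Submodule ℂ R2 := fun i =>
    Submodule.restrictScalars ℂ ((mI (P i) ^ a i : Ideal R2))
  have h1 := finrank_le_inf_iInf (Finset.univ : Finset (Fin r)) K (fun i => (a i + 1).choose 2) (by
      intro i _ U hU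
      have : FiniteDimensional ℂ (U ⊓ K i : Submodule ℂ R2) :=
        Submodule.finiteDimensional_of_le inf_le_left
      have h2 := finrank_le_add (U ⊓ K i) U (tayL (a i) (P i)) (by
          intro x hx h0
          refine Submodule.mem_inf.2 ⟨hx, ?_⟩
          exact mem_of_tayL h0)
      rw [finrank_fintype_fun_eq_card, card_Tri] at h2
      exact h2) (V n)
  have h2 : V n ⊓ ⨅ i ∈ Finset.univ, K i ≤ SP n Finset.univ P a := by
    intro F hF
    obtain ⟨h3, h4⟩ := Submodule.mem_inf.1 hF
    refine ⟨h3, fun i hi => ?_⟩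
    rw [Submodule.mem_iInf] at h4
    have h5 := h4 i
    rw [Submodule.mem_iInf] at h5
    exact h5 hi
  have hfd : FiniteDimensional ℂ (SP n Finset.univ P a) :=
    Submodule.finiteDimensional_of_le (fun F hF => hF.1 : SP n Finset.univ P a ≤ V n)
  have h3 := Submodule.finrank_mono h2
  have h4 := le_finrank_V n hn
  have h5 : (finrank ℂ (V n) : ℤ) ≤ finrank ℂ (SP n Finset.univ P a) +
      ∑ i, ((a i + 1).choose 2 : ℤ) := by
    have : finrank ℂ (V n) ≤ finrank ℂ (SP n Finset.univ P a) +
      ∑ i, (a i + 1).choose 2 := by omega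
    exact_mod_cast this
  have h6 : 2 * ∑ i, ((a i + 1).choose 2 : ℤ) = ∑ i, (a i : ℤ) * (a i + 1) := by
    rw [Finset.mul_sum]
    apply Finset.sum_congr rfl
    intro i _
    have h7 : (a i + 1).choose 2 * 2 = (a i + 1) * a i := by
      rw [Nat.choose_two_right, Nat.add_sub_cancel]
      exact Nat.div_mul_cancel (Nat.even_mul_pred_self (a i + 1)).two_dvd
    have h8 : (((a i + 1).choose 2 : ℕ) : ℤ) * 2 = (a i + 1) * a i := by exact_mod_cast h7
    linarith
  unfold ch2
  linarith

end Pool.Agent.Helper35.SB
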