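import Pool.Agent.Helper66.SB.Goals

/-!
# Project SB, packet XV: the functional `XF ξ j` kills the ideal
-/

set_option autoImplicit false

open Module MvPolynomial

noncomputable section

namespace Pool.Agent.Helper35.SB

open Helper18.Shgh Pool.Agent.Helper66.SB

theorem XF_mono (ξ : Polynomial ℂ →ₗ[ℂ] ℂ) (j : ℕ) (e : Fin 2 →₀ ℕ) :
    XF ξ j (monomial e 1) = if e 0 = j then ξ (Polynomial.X ^ (e 1)) else 0 := by
  have h := Basis.constr_basis (basisMonomials (Fin 2) ℂ) ℂ
    (fun e : Fin 2 →₀ ℕ => if e 0 = j then ξ (Polynomial.X ^ (e 1)) else 0) e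
  rw [coe_basisMonomials] at h
  exact h

theorem lin_ext {f g : R2 →ₗ[ℂ] ℂ} (h : ∀ e, f (monomial e 1) = g (monomial e 1)) : f = g := by
  apply (basisMonomials (Fin 2) ℂ).ext
  intro e
  rw [coe_basisMonomials]
  exact h e

theorem X0_mul_mono (M : ℕ) (e : Fin 2 →₀ ℕ) :
    (X 0 ^ M * monomial e 1 : R2) = monomial (Finsupp.single 0 M + e) 1 := by
  rw [X_pow_eq_monomial, monomial_mul, one_mul]

theorem X1_mul_mono (e : Fin 2 →₀ ℕ) :
    (X 1 * monomial e 1 : R2) = monomial (Finsupp.single 1 1 + e) 1 := by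
  rw [X, monomial_mul, one_mul]

theorem XF_pow_mul (ξ : Polynomial ℂ →ₗ[ℂ] ℂ) (j M : ℕ) (h : j < M) (G : R2) :
    XF ξ j (X 0 ^ M * G) = 0 := by
  have h1 : (XF ξ j).comp (LinearMap.mulLeft ℂ (X 0 ^ M : R2)) = 0 := by
    apply lin_ext
    intro e
    rw [LinearMap.comp_apply, LinearMap.mulLeft_apply, X0_mul_mono, XF_mono, if_neg]
    · rfl
    · rw [Finsupp.add_apply, Finsupp.single_eq_same]
      omega
  exact DFunLike.congr_fun h1 G

theorem XF_X0_mul (ξ : Polynomial ℂ →ₗ[ℂ] ℂ) (j : ℕ) (G : R2) :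
    XF ξ (j + 1) (X 0 * G) = XF ξ j G := by
  have h1 : (XF ξ (j + 1)).comp (LinearMap.mulLeft ℂ (X 0 : R2)) = XF ξ j := by
    apply lin_ext
    intro e
    have h2 := X0_mul_mono 1 e
    rw [pow_one] at h2
    rw [LinearMap.comp_apply, LinearMap.mulLeft_apply, h2, XF_mono, XF_mono]
    have e1 : (Finsupp.single (0 : Fin 2) 1 + e : Fin 2 →₀ ℕ) 0 = 1 + e 0 := by
      rw [Finsupp.add_apply, Finsupp.single_eq_same]
    have e2 : (Finsupp.single (0 : Fin 2) 1 + e : Fin 2 →₀ ℕ) 1 = e 1 := by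
      rw [Finsupp.add_apply, Finsupp.single_eq_of_ne (by decide), zero_add]
    rw [e1, e2]
    by_cases h3 : e 0 = j
    · rw [if_pos h3, if_pos (by omega)]
    · rw [if_neg h3, if_neg (by omega)]
  exact DFunLike.congr_fun h1 G

theorem XF_X1_mul (ξ : Polynomial ℂ →ₗ[ℂ] ℂ) (j : ℕ) (G : R2) :
    XF ξ j ((X 1 - 1) * G) = XF (ξ.comp (LinearMap.mulLeft ℂ (Polynomial.X - 1))) j G := by
  have h1 : (XF ξ j).comp (LinearMap.mulLeft ℂ (X 1 - 1 : R2)) =
      XF (ξ.comp (LinearMap.mulLeft ℂ (Polynomial.X - 1))) j := by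
    apply lin_ext
    intro e
    rw [LinearMap.comp_apply, LinearMap.mulLeft_apply, sub_mul, one_mul, X1_mul_mono, map_sub,
      XF_mono, XF_mono, XF_mono]
    have e1 : (Finsupp.single (1 : Fin 2) 1 + e : Fin 2 →₀ ℕ) 0 = e 0 := by
      rw [Finsupp.add_apply, Finsupp.single_eq_of_ne (by decide), zero_add]
    have e2 : (Finsupp.single (1 : Fin 2) 1 + e : Fin 2 →₀ ℕ) 1 = 1 + e 1 := by
      rw [Finsupp.add_apply, Finsupp.single_eq_same]
    rw [e1, e2]
    by_cases h3 : e 0 = j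
    · rw [if_pos h3, if_pos h3, if_pos h3, LinearMap.comp_apply, LinearMap.mulLeft_apply, sub_mul,
        one_mul, map_sub, pow_add, pow_one]
    · rw [if_neg h3, if_neg h3, if_neg h3, sub_zero]
  exact DFunLike.congr_fun h1 G

theorem XF_zero (j : ℕ) (G : R2) : XF 0 j G = 0 := by
  have h1 : XF 0 j = 0 := by
    apply lin_ext
    intro e
    rw [XF_mono]
    simp
  rw [h1]
  rfl

theorem mem_mI_one {F : R2} (h : F ∈ mI (![0, 1] : Fin 2 → ℂ)) :
    ∃ u v : R2, F = X 0 * u + (X 1 - 1) * v := by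
  unfold mI at h
  refine Submodule.span_induction ?_ ?_ ?_ ?_ h
  · rintro _ ⟨i, rfl⟩
    fin_cases i
    · refine ⟨1, 0, ?_⟩
      simp
    · refine ⟨0, 1, ?_⟩
      simp
  · exact ⟨0, 0, by simp⟩
  · rintro _ _ _ _ ⟨u, v, rfl⟩ ⟨u', v', rfl⟩
    exact ⟨u + u', v + v', by ring⟩
  · rintro c _ _ ⟨u, v, rfl⟩
    exact ⟨c * u, c * v, by rw [smul_eq_mul]; ring⟩

theorem XF_mI (N : ℕ) : ∀ (j : ℕ) (ξ : Polynomial ℂ →ₗ[ℂ] ℂ),
    (∀ p : Polynomial ℂ, ξ ((Polynomial.X - 1) ^ (N - j) * p) = 0) →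
    ∀ G ∈ mI (![0, 1] : Fin 2 → ℂ) ^ N, XF ξ j G = 0 := by
  induction N with
  | zero =>
    intro j ξ h G _
    have : ξ = 0 := by
      apply LinearMap.ext
      intro p
      have := h p
      rw [Nat.zero_sub, pow_zero, one_mul] at this
      exact this
    rw [this]
    exact XF_zero j G
  | succ N ih =>
    intro j ξ h G hG
    rw [pow_succ'] at hG
    refine Submodule.mul_induction_on hG ?_ ?_
    · intro a ha b hb
      obtain ⟨u, v, rfl⟩ := mem_mI_one ha
      have e : (X 0 * u + (X 1 - 1) * v) * b = X 0 * (u * b) + (X 1 - 1) * (v * b) := by ring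
      rw [e, map_add]
      have hu : u * b ∈ mI (![0, 1] : Fin 2 → ℂ) ^ N := Ideal.mul_mem_left _ _ hb
      have hv : v * b ∈ mI (![0, 1] : Fin 2 → ℂ) ^ N := Ideal.mul_mem_left _ _ hb
      have h1 : XF ξ j (X 0 * (u * b)) = 0 := by
        cases j with
        | zero =>
          have := XF_pow_mul ξ 0 1 one_pos (u * b)
          rw [pow_one] at this
          exact this
        | succ j =>
          rw [XF_X0_mul]
          refine ih j ξ ?_ _ hu
          intro p
          have := h p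
          rw [Nat.add_sub_add_right] at this
          exact this
      have h2 : XF ξ j ((X 1 - 1) * (v * b)) = 0 := by
        rw [XF_X1_mul]
        refine ih j _ ?_ _ hv
        intro p
        rw [LinearMap.comp_apply, LinearMap.mulLeft_apply, ← mul_assoc, ← pow_succ']
        rcases le_or_gt j N with hj | hj
        · have := h p
          rw [show N + 1 - j = N - j + 1 by omega] at this
          exact this
        · have := h ((Polynomial.X - 1) ^ (N - j + 1) * p)
          rw [show N + 1 - j = 0 by omega, pow_zero, one_mul] at this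
          exact this
      rw [h1, h2, add_zero]
    · intro a b ha hb
      rw [map_add, ha, hb, add_zero]

theorem gXV : G_XV := by
  intro N j ξ
  refine ⟨?_, ?_, ?_⟩
  · intro a b
    have h1 : (X 0 ^ a * X 1 ^ b : R2) =
        monomial (Finsupp.single 0 a + Finsupp.single 1 b) 1 := by
      rw [X_pow_eq_monomial, X_pow_eq_monomial, monomial_mul, one_mul]
    have e1 : (Finsupp.single (0 : Fin 2) a + Finsupp.single 1 b : Fin 2 →₀ ℕ) 0 = a := by
      rw [Finsupp.add_apply, Finsupp.single_eq_same, Finsupp.single_eq_of_ne (by decide), add_zero]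
    have e2 : (Finsupp.single (0 : Fin 2) a + Finsupp.single 1 b : Fin 2 →₀ ℕ) 1 = b := by
      rw [Finsupp.add_apply, Finsupp.single_eq_same, Finsupp.single_eq_of_ne (by decide), zero_add]
    rw [h1, XF_mono, e1, e2]
  · intro M G h
    exact XF_pow_mul ξ j M h G
  · intro _ h G hG
    exact XF_mI N j ξ h G hG

end Pool.Agent.Helper35.SB
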